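import Pool.Agent.Q57.MD.Defs

set_option autoImplicit false

/-! # The classes of families of polynomials generated from the ideals of the plane and from systems
of quadrics in three variables -/

namespace Pool.Agent.Q57.QM

open MvPolynomial
open Pool.Agent.Q57.MC (Chart mulF hypF)
open Pool.Agent.Q57.MD (sumF IsForm)

/-- `f_1, …, f_r` are polynomials in three variables, not all zero, and either all of them have a
total degree at most `2`, or every common zero `P ∈ ℂ³` of the `f_j` is a smooth point of a surface
`f_j = 0` whose equation has a total degree at most `2` (the degrees of the other `f_j` are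
arbitrary). -/
def QuadSys {r : ℕ} (f : Fin r → MvPolynomial (Fin 3) ℂ) : Prop :=
  (∃ j, f j ≠ 0) ∧
    ((∀ j, (f j).totalDegree ≤ 2) ∨
      ∀ P : Fin 3 → ℂ, (∀ j, eval P (f j) = 0) →
        ∃ j i, (f j).totalDegree ≤ 2 ∧ eval P (pderiv i (f j)) ≠ 0)

/-- The chart `x_i = 1`. -/
noncomputable def dehC {n : ℕ} (i : Fin (n + 1)) (f : MvPolynomial (Fin (n + 1)) ℂ) :
    MvPolynomial (Fin n) ℂ :=
  aeval (i.insertNth (1 : MvPolynomial (Fin n) ℂ) X : Fin (n + 1) → MvPolynomial (Fin n) ℂ) f

/-- Three kinds of classes: of germs at the origin of `ℂ ^ n`, of families on `ℂ ^ n` which are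
covered by charts with such germs, and of families on `ℂ ^ n`. -/
inductive Kd
  | germ
  | cov
  | glob

/-- The smallest classes of families `f_1, …, f_r` of polynomials in `n` variables with the following
properties. The classes with `true` are the ones for which sums of ideals are defined. -/
inductive QC : Kd → Bool → (n r : ℕ) → (Fin r → MvPolynomial (Fin n) ℂ) → Prop
  /-- the nonzero ideals of `ℂ[x, y]` -/
  | plane {r : ℕ} (f : Fin r → MvPolynomial (Fin 2) ℂ) (hf : ∃ j, f j ≠ 0) : QC .cov true 2 r f
  /-- polynomials of degree at most two in three variables, and ideals of subschemes of smooth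
  quadric surfaces -/
  | quad {r : ℕ} (f : Fin r → MvPolynomial (Fin 3) ℂ) (hf : QuadSys f) : QC .cov true 3 r f
  /-- quadratic forms in four variables, not all zero -/
  | quad4 {r : ℕ} (f : Fin r → MvPolynomial (Fin 4) ℂ) (hf : ∃ j, f j ≠ 0)
      (h : ∀ j, (f j).IsHomogeneous 2) : QC .cov true 4 r f
  /-- forms of degree `d` such that the ideals of the charts `x_i = 1` are in the class, with one of
  the following properties: `n + 1` of the forms are algebraically independent; or `d ≥ 2` and there
  are only the trivial relations between the derivatives of some `F = ∑ λ_j f_j ≠ 0` (so the origin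
  is an isolated singularity of `F`); or `-(n + 1) / d` is a root of all the polynomials which satisfy
  a local functional equation of the `f_j` at the origin -/
  | forms {b : Bool} {n r : ℕ} (f : Fin r → MvPolynomial (Fin (n + 1)) ℂ) (d : ℕ)
      (hf : IsForm Finset.univ d f) (h : ∀ i, QC .cov b n r fun j => dehC i (f j)) :
      QC .cov b (n + 1) r f
  /-- sums of ideals in disjoint sets of variables -/
  | csum {n r n' r' : ℕ} (f : Fin r → MvPolynomial (Fin n) ℂ)
      (g : Fin r' → MvPolynomial (Fin n') ℂ) (hf : QC .cov true n r f)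
      (hg : QC .cov true n' r' g) : QC .cov true (n + n') (r + r') (sumF f g)
  /-- products of ideals in disjoint sets of variables -/
  | cmul {b : Bool} {n r n' r' : ℕ} (f : Fin r → MvPolynomial (Fin n) ℂ)
      (g : Fin r' → MvPolynomial (Fin n') ℂ) (hf : QC .cov b n r f) (hg : QC .cov b n' r' g) :
      QC .cov b (n + n') (r * r') (mulF f g)
  /-- families, not all zero, such that every common zero is in a chart of a finite set -/
  | charts {b : Bool} {n r : ℕ} (f : Fin r → MvPolynomial (Fin n) ℂ) (hf : ∃ j, f j ≠ 0)
      (S : Finset (Chart (Fin n))) (hS : ∀ A ∈ S, A.Fits f) (hT : ∀ A ∈ S, QC .germ b A.c A.r A.h)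
      (hp : ∀ p : Fin n → ℂ, (∀ j, eval p (f j) = 0) → ∃ A ∈ S, A.Mem p) : QC .cov b n r f
  /-- the germ at the origin -/
  | germ {b : Bool} {n r : ℕ} (f : Fin r → MvPolynomial (Fin n) ℂ) (hf : QC .cov b n r f) :
      QC .germ b n r f
  /-- families which are covered by charts -/
  | glob {b : Bool} {n r : ℕ} (f : Fin r → MvPolynomial (Fin n) ℂ) (hf : QC .cov b n r f) :
      QC .glob b n r f
  /-- the families of the small classes -/
  | weak {k : Kd} {n r : ℕ} (f : Fin r → MvPolynomial (Fin n) ℂ) (hf : QC k true n r f) :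
      QC k false n r f
  /-- products of ideals in disjoint sets of variables -/
  | mul {k : Kd} (hk : k ≠ .cov) {b : Bool} {n r n' r' : ℕ} (f : Fin r → MvPolynomial (Fin n) ℂ)
      (g : Fin r' → MvPolynomial (Fin n') ℂ) (hf : QC k b n r f) (hg : QC k b n' r' g) :
      QC k b (n + n') (r * r') (mulF f g)
  /-- sums of ideals in disjoint sets of variables -/
  | sum {k : Kd} (hk : k ≠ .cov) {n r n' r' : ℕ} (f : Fin r → MvPolynomial (Fin n) ℂ)
      (g : Fin r' → MvPolynomial (Fin n') ℂ) (hf : QC k true n r f) (hg : QC k true n' r' g) :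
      QC k true (n + n') (r + r') (sumF f g)
  /-- the hypersurface `∑ y_j f_j = 0` -/
  | hyp {k : Kd} (hk : k ≠ .cov) {b : Bool} {n r : ℕ} (f : Fin r → MvPolynomial (Fin n) ℂ)
      (hf : QC k b n r f) : QC k b (n + r) 1 fun _ => hypF f
  /-- germs: in `ℂ[[x]]` the `f_j` generate the same ideal as the `h_k(g_1, …, g_c)`, where
  `g_1, …, g_c` are a part of a system of formal coordinates -/
  | formal {b : Bool} {n r c l : ℕ} (f : Fin r → MvPolynomial (Fin n) ℂ)
      (h : Fin l → MvPolynomial (Fin c) ℂ) (g : Fin c → MvPowerSeries (Fin n) ℂ)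
      (s : Fin c → Fin n) (hg : ∀ t, MvPowerSeries.constantCoeff (g t) = 0)
      (hd : (Matrix.of fun u t => MvPowerSeries.coeff (Finsupp.single (s u) 1) (g t)).det ≠ 0)
      (hs : Ideal.span (Set.range fun j =>
          ((f j : MvPolynomial (Fin n) ℂ) : MvPowerSeries (Fin n) ℂ)) =
        Ideal.span (Set.range fun k => aeval g (h k))) (hh : QC .germ b c l h) : QC .germ b n r f

end Pool.Agent.Q57.QM
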