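import Pool.Agent.Q57.QM.Cyl
import Pool.Agent.Q57.QM.Defs
import Pool.Agent.Q57.MD.Glob
import Pool.Agent.W574.MO.Defs
import Pool.Agent.Y230.RE.Exist

set_option autoImplicit false

/-! # Ideals of the plane and arcs; covers by charts: definitions and statements of the steps -/

namespace Pool.Agent.Q57.QM

open MvPolynomial Pool.Agent.W428.MOT Pool.Agent.TH192.MT Pool.Agent.TH192.DT Pool.Agent.Q49.CO
open Pool.Agent.W574.MO (mf geo MotLocal DenRing)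
open Pool.Agent.W574.SM (chart chartI)
open Pool.Agent.Q57.MC (Chart Same mulF)
open Pool.Agent.Q57.MD (sumF IsForm OnlyTrivial PM)

/-! ## Arcs -/

section arcs

variable {R : Type} [CommRing R] (M : Meas ℂ R) (v : R) {ι : Type}

/-- A condition on a coordinate: it vanishes at the origin (for `a = 0`, where only `k = 0` is
allowed); it has the order `k ≥ 1` (for `a > 0`). -/
def OC (a k : ℕ) (u : PowerSeries (AlgebraicClosure ℂ)) : Prop :=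
  if a = 0 then k = 0 ∧ Vn 1 u else 1 ≤ k ∧ Vn k u ∧ PowerSeries.coeff k u ≠ 0

/-- the arcs in `Q` with the orders `k0`, `k1` of the coordinates (as far as `a0, a1 > 0`), on which
the family has the order at least `N` -/
def Rg (g : ι → MvPolynomial (Fin 2) ℂ) (a0 k0 a1 k1 : ℕ) (Q : Arc ℂ (Fin 2) → Prop) (N : ℕ)
    (γ : Arc ℂ (Fin 2)) : Prop :=
  Q γ ∧ OC a0 k0 (γ 0) ∧ OC a1 k1 (γ 1) ∧ ∀ j, Vn N (aeval γ (g j))

/-- the coefficient of `T ^ N` of the part of `∫ T ^ (a0 ord x + a1 ord y + ord g) v ^ …` which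
belongs to `k0`, `k1` -/
noncomputable def dv (g : ι → MvPolynomial (Fin 2) ℂ) (a0 n0 a1 n1 : ℕ) (Q : Arc ℂ (Fin 2) → Prop)
    (k0 k1 N : ℕ) : R :=
  v ^ ((n0 - 1) * k0 + (n1 - 1) * k1) *
    (vo M v (Rg g a0 k0 a1 k1 Q (N - (a0 * k0 + a1 * k1))) -
      vo M v (Rg g a0 k0 a1 k1 Q (N + 1 - (a0 * k0 + a1 * k1))))

/-- the sum over `k0, k1 < B` -/
noncomputable def sv (g : ι → MvPolynomial (Fin 2) ℂ) (a0 n0 a1 n1 : ℕ) (Q : Arc ℂ (Fin 2) → Prop)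
    (B N : ℕ) : R :=
  M.L ^ 2 * ∑ k0 ∈ Finset.range B, ∑ k1 ∈ Finset.range B, dv M v g a0 n0 a1 n1 Q k0 k1 N

/-- the series `L² ∫ T ^ (a0 ord x + a1 ord y + ord g) v ^ ((n0 - 1) ord x + (n1 - 1) ord y)` over the
arcs with origin `0` -/
noncomputable def IS (g : ι → MvPolynomial (Fin 2) ℂ) (a0 n0 a1 n1 : ℕ) : PowerSeries R :=
  PowerSeries.mk fun N => sv M v g a0 n0 a1 n1 (fun _ => True) (N + 1) N

/-- the two variables are exchanged -/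
noncomputable def sw (g : ι → MvPolynomial (Fin 2) ℂ) (j : ι) : MvPolynomial (Fin 2) ℂ :=
  rename (Equiv.swap 0 1) (g j)

/-- the arc `(x, x (c + y))` -/
noncomputable def psi (c : ℂ) (δ : Arc ℂ (Fin 2)) : Arc ℂ (Fin 2) :=
  ![δ 0, δ 0 * (PowerSeries.C (algebraMap ℂ (AlgebraicClosure ℂ) c) + δ 1)]

/-- `ord x = k` and `(y / x)(0) = c` -/
def Dc (c : ℂ) (k : ℕ) (γ : Arc ℂ (Fin 2)) : Prop :=
  Vn k (γ 0) ∧ PowerSeries.coeff k (γ 0) ≠ 0 ∧ Vn k (γ 1) ∧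
    PowerSeries.coeff k (γ 1) = algebraMap ℂ (AlgebraicClosure ℂ) c * PowerSeries.coeff k (γ 0)

/-- `ord x = k`, `ord y ≥ k` and `(y / x)(0)` is not in `S` -/
def Er (S : Finset ℂ) (k : ℕ) (γ : Arc ℂ (Fin 2)) : Prop :=
  Vn k (γ 0) ∧ PowerSeries.coeff k (γ 0) ≠ 0 ∧ Vn k (γ 1) ∧ ∀ c ∈ S,
    PowerSeries.coeff k (γ 1) ≠ algebraMap ℂ (AlgebraicClosure ℂ) c * PowerSeries.coeff k (γ 0)

/-- Step W1: the sums over `k0, k1 < B` do not depend on `B > N`. -/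
def StWin : Prop := ∀ {R : Type} [CommRing R] (M : Meas ℂ R) (v : R), M.L * v = 1 →
  ∀ {r : ℕ} (g : Fin r → MvPolynomial (Fin 2) ℂ) (a0 n0 a1 n1 : ℕ) (Q : Arc ℂ (Fin 2) → Prop)
    (B N : ℕ), N + 1 ≤ B → sv M v g a0 n0 a1 n1 Q B N = sv M v g a0 n0 a1 n1 Q (N + 1) N

/-- Step W2: exchanging the variables. -/
def StSwap : Prop := ∀ {R : Type} [CommRing R] (M : Meas ℂ R) (v : R), M.L * v = 1 →
  ∀ {r : ℕ} (g : Fin r → MvPolynomial (Fin 2) ℂ) (a0 n0 a1 n1 : ℕ) (Q : Arc ℂ (Fin 2) → Prop)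
    (q : ℕ), Cyl Q q → ∀ B N : ℕ,
    sv M v (sw g) a1 n1 a0 n0 (fun γ => Q fun i => γ (Equiv.swap 0 1 i)) B N =
      sv M v g a0 n0 a1 n1 Q B N

/-- Step W3: arcs of high order. -/
def StTail : Prop := ∀ {R : Type} [CommRing R] (M : Meas ℂ R) (v : R), M.L * v = 1 →
  ∀ {r : ℕ} (g gc : Fin r → MvPolynomial (Fin 2) ℂ) (m : ℕ), 1 ≤ m →
    (∀ j, aeval (chart 0) (g j) = X 0 ^ m * gc j) → ∀ (a0 n0 a1 n1 B B' N : ℕ), N + 1 ≤ B →
    sv M v g a0 n0 a1 n1 (fun γ => Vn B (γ 0) ∧ Vn B (γ 1)) B' N = 0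

/-- Step V1: the change of variables `(x, y) ↦ (x, x (c + y))`. -/
def StBlowVol : Prop := ∀ {R : Type} [CommRing R] (M : Meas ℂ R) (v : R), M.L * v = 1 →
  ∀ (P : Arc ℂ (Fin 2) → Prop) (q k : ℕ) (c : ℂ), Cyl P q →
    (∀ γ, P γ → Vn k (γ 0) ∧ PowerSeries.coeff k (γ 0) ≠ 0 ∧ Vn k (γ 1)) →
    (Cyl (fun δ => P (psi c δ)) q) ∧ vo M v P = v ^ k * vo M v (fun δ => P (psi c δ))

/-- the volume of the set of the `u` such that `OC a k u` -/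
noncomputable def bx (a k : ℕ) : R :=
  if a = 0 then (if k = 0 then v else 0) else (if k = 0 then 0 else (M.L - 1) * v ^ (k + 1))

/-- Step V2: the volumes for given orders of the coordinates. -/
def StBox : Prop := ∀ {R : Type} [CommRing R] (M : Meas ℂ R) (v : R), M.L * v = 1 →
  ∀ a0 k0 a1 k1 : ℕ, vo M v (fun γ : Arc ℂ (Fin 2) => OC a0 k0 (γ 0) ∧ OC a1 k1 (γ 1)) =
    bx M v a0 k0 * bx M v a1 k1

/-- Step V3: the volume of `Er S k`. -/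
def StErVol : Prop := ∀ {R : Type} [CommRing R] (M : Meas ℂ R) (v : R), M.L * v = 1 →
  ∀ (S : Finset ℂ) (k : ℕ), vo M v (Er S k) = (M.L - 1) * (M.L - S.card) * v ^ (2 * (k + 1))

/-- Step V4: the volumes for a curve which is transversal to `x = 0` at the origin (use
`Pool.Agent.Q57.MC.vol_chart` with `a = (X 0, h)` for the family `X 0 ^ N`, `h ^ k` and the threshold
`k N`). -/
def StCurveVol : Prop := ∀ {R : Type} [CommRing R] (M : Meas ℂ R) (v : R), M.L * v = 1 →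
  ∀ h : MvPolynomial (Fin 2) ℂ, constantCoeff h = 0 → constantCoeff (pderiv 1 h) ≠ 0 →
  ∀ k N : ℕ, 1 ≤ k → 1 ≤ N → vo M v (fun γ : Arc ℂ (Fin 2) =>
    Vn k (γ 0) ∧ Vn 1 (γ 1) ∧ Vn N (aeval γ h)) = v ^ (k + N)

/-- Step L1: units. -/
def StUnit : Prop := ∀ {R : Type} [CommRing R] (M : Meas ℂ R) (u : Rˣ), M.L = (u : R) →
  ∀ {r : ℕ} (g : Fin r → MvPolynomial (Fin 2) ℂ) (j : Fin r), constantCoeff (g j) ≠ 0 →
  ∀ a0 n0 a1 n1 : ℕ, 1 ≤ n0 → 1 ≤ n1 → (a0 = 0 → n0 = 1) → (a1 = 0 → n1 = 1) →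
    IS M ((u⁻¹ : Rˣ) : R) g a0 n0 a1 n1 = mf u a0 n0 * mf u a1 n1

/-- Step L2: powers of smooth curves. -/
def StCurve : Prop := ∀ {R : Type} [CommRing R] (M : Meas ℂ R) (u : Rˣ), M.L = (u : R) →
  ∀ {r : ℕ} (g : Fin r → MvPolynomial (Fin 2) ℂ) (m : ℕ), 1 ≤ m →
  ∀ (h : MvPolynomial (Fin 2) ℂ) (κ : Fin r → MvPolynomial (Fin 2) ℂ),
    (∀ j, g j = h ^ m * κ j) → constantCoeff h = 0 → constantCoeff (pderiv 1 h) ≠ 0 →
  ∀ j, constantCoeff (κ j) ≠ 0 → ∀ a0 n0 : ℕ, 1 ≤ n0 → (a0 = 0 → n0 = 1) →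
    IS M ((u⁻¹ : Rˣ) : R) g a0 n0 0 1 = mf u a0 n0 * mf u m 1

/-- Step B1: the arcs in `Dc c k`. -/
def StChartK : Prop := ∀ {R : Type} [CommRing R] (M : Meas ℂ R) (v : R), M.L * v = 1 →
  ∀ {r : ℕ} (g gc : Fin r → MvPolynomial (Fin 2) ℂ) (m : ℕ) (c : ℂ), 1 ≤ m →
    (∀ j, aeval (chart c) (g j) = X 0 ^ m * gc j) → ∀ (a0 n0 a1 n1 k B N : ℕ), 1 ≤ n0 → 1 ≤ n1 →
    (a0 = 0 → n0 = 1) → (a1 = 0 → n1 = 1) → 1 ≤ k → N + 1 ≤ B →
    sv M v g a0 n0 a1 n1 (Dc c k) B N = M.L ^ 2 * ∑ k1 ∈ Finset.range B,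
      dv M v gc (a0 + a1 + m) (n0 + n1) (if c = 0 then a1 else 0) (if c = 0 then n1 else 1)
        (fun _ => True) k k1 N

/-- Step B2: the arcs in `Er S k`. -/
def StRestK : Prop := ∀ {R : Type} [CommRing R] (M : Meas ℂ R) (v : R), M.L * v = 1 →
  ∀ {r : ℕ} (g : Fin r → MvPolynomial (Fin 2) ℂ) (gc : ℂ → Fin r → MvPolynomial (Fin 2) ℂ) (m : ℕ),
    1 ≤ m → (∀ c j, aeval (chart c) (g j) = X 0 ^ m * gc c j) → ∀ S : Finset ℂ, 0 ∈ S →
    (∀ c ∉ S, ∃ j, constantCoeff (gc c j) ≠ 0) → ∀ (a0 n0 a1 n1 k B N : ℕ), 1 ≤ n0 → 1 ≤ n1 →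
    (a0 = 0 → n0 = 1) → (a1 = 0 → n1 = 1) → 1 ≤ k → N + 1 ≤ B →
    sv M v g a0 n0 a1 n1 (Er S k) B N =
      if (a0 + a1 + m) * k = N then (M.L - 1) * (M.L - S.card) * v ^ ((n0 + n1) * k) else 0

/-- Step B3: the blow-up of the origin (use W1, W2, W3, B1, B2: the arcs with origin `0` are the
disjoint union of the sets `Dc c k`, `Er S k`, `{ord y = k, ord x > k}` for `1 ≤ k ≤ N` and of the set
of the arcs of order at least `N + 1`). -/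
def StBlow : Prop := ∀ {R : Type} [CommRing R] (M : Meas ℂ R) (u : Rˣ), M.L = (u : R) →
  ∀ {r : ℕ} (g : Fin r → MvPolynomial (Fin 2) ℂ) (gc : ℂ → Fin r → MvPolynomial (Fin 2) ℂ)
    (gI : Fin r → MvPolynomial (Fin 2) ℂ) (m : ℕ), 1 ≤ m →
    (∀ c j, aeval (chart c) (g j) = X 0 ^ m * gc c j) →
    (∀ j, aeval chartI (g j) = X 1 ^ m * gI j) → ∀ S : Finset ℂ, 0 ∈ S →
    (∀ c ∉ S, ∃ j, constantCoeff (gc c j) ≠ 0) → ∀ (a0 n0 a1 n1 : ℕ), 1 ≤ n0 → 1 ≤ n1 →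
    (a0 = 0 → n0 = 1) → (a1 = 0 → n1 = 1) →
    IS M ((u⁻¹ : Rˣ) : R) g a0 n0 a1 n1 =
      IS M ((u⁻¹ : Rˣ) : R) gI a0 n0 (a0 + a1 + m) (n0 + n1) +
      ∑ c ∈ S, IS M ((u⁻¹ : Rˣ) : R) (gc c) (a0 + a1 + m) (n0 + n1) (if c = 0 then a1 else 0)
        (if c = 0 then n1 else 1) +
      PowerSeries.C ((u : R) - (S.card : R)) * mf u (a0 + a1 + m) (n0 + n1)

/-- Step T: the arcs satisfy the rules of `MotLocal` (induction on the tree
`Pool.Agent.Y230.RE.KT`, see `Pool.Agent.Y230.RE.exists_KT` and `Pool.Agent.Y230.PT.exists_LT`). -/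
def StTree : Prop := ∀ {R : Type} [CommRing R] (M : Meas ℂ R) (u : Rˣ), M.L = (u : R) →
  ∀ {r : ℕ} (g : Fin r → MvPolynomial (Fin 2) ℂ), (∃ j, g j ≠ 0) →
    MotLocal u g 0 1 0 1 (IS M ((u⁻¹ : Rˣ) : R) g 0 1 0 1)

/-- Step D: the two descriptions of denominators. -/
def StDen : Prop := ∀ {R : Type} [CommRing R] (u : Rˣ) (K : ℕ → ℕ → Prop) (Z : PowerSeries R),
  Z ∈ DenRing u K → ∃ S : Finset (ℤ × ℤ), (∀ q ∈ S, ∃ a n : ℕ, 1 ≤ a ∧ 1 ≤ n ∧ K a n ∧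
    q = (-(n : ℤ), (a : ℤ))) ∧ Z ∈ ratU u (S : Set (ℤ × ℤ))

/-- Step P: the germs of ideals of the plane (use T, D, `Pool.Agent.Y229.point_sf`,
`vol_eq_vo`; the series of the volumes of `ord ≥ N` is `v² tail 1 Z`). -/
def StPlane : Prop := ∀ {M : Meas ℂ (MK ℂ)}, M.L = ((Lu ℂ : (MK ℂ)ˣ) : MK ℂ) →
  ∀ {r : ℕ} (f : Fin r → MvPolynomial (Fin 2) ℂ), (∃ j, f j ≠ 0) → PM M true f

end arcs

/-! ## Covers -/

section covers

/-- Every common zero `p` of the `f_j` with `P p` is in a chart of a finite set of charts, whose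
germs satisfy `Γ`. -/
def Cv (Γ : ∀ n r : ℕ, (Fin r → MvPolynomial (Fin n) ℂ) → Prop) {n r : ℕ}
    (f : Fin r → MvPolynomial (Fin n) ℂ) (P : (Fin n → ℂ) → Prop) : Prop :=
  ∃ S : Finset (Chart (Fin n)), (∀ A ∈ S, A.Fits f ∧ Γ A.c A.r A.h) ∧
    ∀ p, P p → (∀ j, eval p (f j) = 0) → ∃ A ∈ S, A.Mem p

/-- properties of classes of germs -/
structure GG (Γ : ∀ n r : ℕ, (Fin r → MvPolynomial (Fin n) ℂ) → Prop) : Prop where
  plane : ∀ {r : ℕ} (f : Fin r → MvPolynomial (Fin 2) ℂ), (∃ j, f j ≠ 0) → Γ 2 r f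
  pow : ∀ m : ℕ, 1 ≤ m → Γ 1 1 fun _ => X 0 ^ m
  sum : ∀ {n r n' r' : ℕ} (f : Fin r → MvPolynomial (Fin n) ℂ)
    (g : Fin r' → MvPolynomial (Fin n') ℂ), Γ n r f → Γ n' r' g → Γ (n + n') (r + r') (sumF f g)
  mul : ∀ {n r n' r' : ℕ} (f : Fin r → MvPolynomial (Fin n) ℂ)
    (g : Fin r' → MvPolynomial (Fin n') ℂ), Γ n r f → Γ n' r' g → Γ (n + n') (r * r') (mulF f g)
  cone : ∀ {n r : ℕ} (f : Fin r → MvPolynomial (Fin n) ℂ) (d : ℕ), IsForm Finset.univ d f →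
    Cv Γ f (fun p => p ≠ 0) → Γ n r f
  lin : ∀ {n r l : ℕ} (f : Fin r → MvPolynomial (Fin n) ℂ) (h : Fin l → MvPolynomial (Fin n) ℂ)
    (U : Matrix (Fin n) (Fin n) ℂ), U.det ≠ 0 → Ideal.span (Set.range f) =
      Ideal.span (Set.range fun k => aeval (fun i => ∑ j, C (U i j) * X j :
        Fin n → MvPolynomial (Fin n) ℂ) (h k)) → Γ n l h → Γ n r f

/-- Step C1: the pull-back of a cover by `φ = (a_1/w, …, a_c/w)`, at the points at which the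
differentials of the `a_t/w` are linearly independent. -/
def StCvComp : Prop := ∀ (Γ : ∀ n r : ℕ, (Fin r → MvPolynomial (Fin n) ℂ) → Prop) {n r c r' : ℕ}
  (f : Fin r → MvPolynomial (Fin n) ℂ) (h : Fin r' → MvPolynomial (Fin c) ℂ)
  (a : Fin c → MvPolynomial (Fin n) ℂ) (w : MvPolynomial (Fin n) ℂ), Same f h a w →
  Cv Γ h (fun _ => True) → Cv Γ f fun p => eval p w ≠ 0 ∧ ∃ s : Fin c → Fin n,
    (Matrix.of fun u t => eval p (pderiv (s u) (a t) * w - a t * pderiv (s u) w)).det ≠ 0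

/-- Step C2: ideals of the plane. -/
def StCvPlane : Prop := ∀ (Γ : ∀ n r : ℕ, (Fin r → MvPolynomial (Fin n) ℂ) → Prop),
  (∀ {r : ℕ} (f : Fin r → MvPolynomial (Fin 2) ℂ), (∃ j, f j ≠ 0) → Γ 2 r f) →
  (∀ m : ℕ, 1 ≤ m → Γ 1 1 fun _ => X 0 ^ m) → ∀ {r : ℕ} (f : Fin r → MvPolynomial (Fin 2) ℂ),
  (∃ j, f j ≠ 0) → Cv Γ f fun _ => True

/-- Step C3: sums of ideals. -/
def StCvSum : Prop := ∀ (Γ : ∀ n r : ℕ, (Fin r → MvPolynomial (Fin n) ℂ) → Prop),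
  (∀ {n r n' r' : ℕ} (f : Fin r → MvPolynomial (Fin n) ℂ) (g : Fin r' → MvPolynomial (Fin n') ℂ),
    Γ n r f → Γ n' r' g → Γ (n + n') (r + r') (sumF f g)) → ∀ {n r n' r' : ℕ}
  (f : Fin r → MvPolynomial (Fin n) ℂ) (g : Fin r' → MvPolynomial (Fin n') ℂ),
  Cv Γ f (fun _ => True) → Cv Γ g (fun _ => True) → Cv Γ (sumF f g) fun _ => True

/-- Step C4: products of ideals. -/
def StCvMul : Prop := ∀ (Γ : ∀ n r : ℕ, (Fin r → MvPolynomial (Fin n) ℂ) → Prop),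
  (∀ {n r n' r' : ℕ} (f : Fin r → MvPolynomial (Fin n) ℂ) (g : Fin r' → MvPolynomial (Fin n') ℂ),
    Γ n r f → Γ n' r' g → Γ (n + n') (r * r') (mulF f g)) → ∀ {n r n' r' : ℕ}
  (f : Fin r → MvPolynomial (Fin n) ℂ) (g : Fin r' → MvPolynomial (Fin n') ℂ),
  Cv Γ f (fun _ => True) → Cv Γ g (fun _ => True) → Cv Γ (mulF f g) fun _ => True

/-- Step C5: forms, away from the origin (use C1 with `w = X i`). -/
def StCvForms : Prop := ∀ (Γ : ∀ n r : ℕ, (Fin r → MvPolynomial (Fin n) ℂ) → Prop) {n r : ℕ}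
  (f : Fin r → MvPolynomial (Fin (n + 1)) ℂ) (d : ℕ), (∀ j, (f j).IsHomogeneous d) →
  (∀ i, Cv Γ (fun j => dehC i (f j)) fun _ => True) → Cv Γ f fun p => p ≠ 0

/-- Step S1: a surface `x_2 L(x_0, x_1) + N(x_0, x_1) = 0`, where `L ≠ 0` (let `G_j` be
`L ^ D f_j(x_0, x_1, - N / L)`; use C1 for `(f i0, X 0, X 1)` with the denominator `L`, and C2, C3, or
one chart, if all `G_j` are zero). -/
def StCvLin : Prop := ∀ (Γ : ∀ n r : ℕ, (Fin r → MvPolynomial (Fin n) ℂ) → Prop), GG Γ →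
  ∀ {r : ℕ} (f : Fin r → MvPolynomial (Fin 3) ℂ) (i0 : Fin r) (L N : MvPolynomial (Fin 2) ℂ),
  f i0 = X 2 * rename Fin.castSucc L + rename Fin.castSucc N →
  Cv Γ f fun p => eval p (rename Fin.castSucc L) ≠ 0

/-- Step S2: a surface of degree two, where its derivative in an isotropic direction `e` of its part
of degree two is not zero (a linear change of coordinates, C1 and S1). -/
def StCvIso : Prop := ∀ (Γ : ∀ n r : ℕ, (Fin r → MvPolynomial (Fin n) ℂ) → Prop), GG Γ →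
  ∀ {r : ℕ} (f : Fin r → MvPolynomial (Fin 3) ℂ) (i0 : Fin r) (e : Fin 3 → ℂ),
  (f i0).totalDegree ≤ 2 → eval e (homogeneousComponent 2 (f i0)) = 0 →
  Cv Γ f fun p => ∑ i, e i * eval p (pderiv i (f i0)) ≠ 0

/-- Step S3: the isotropic vectors of a quadratic form in three variables. -/
def StIsoVec : Prop := ∀ q : MvPolynomial (Fin 3) ℂ, q.IsHomogeneous 2 →
  (∃ T : Matrix (Fin 3) (Fin 3) ℂ, T.det ≠ 0 ∧ ∀ k, eval (T k) q = 0) ∨
  ∃ l : Fin 3 → ℂ, l ≠ 0 ∧ q = (∑ i, C (l i) * X i) ^ 2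

/-- Step S4: the smooth points of a surface of degree two (use S2, S3, C1; if the part of degree two is
the square of a linear form `l` and the surface is the union of the planes `l = a` and `l = b`, then
replace `f i0` by `l - a` where `l ≠ b`). -/
def StCvSmooth : Prop := ∀ (Γ : ∀ n r : ℕ, (Fin r → MvPolynomial (Fin n) ℂ) → Prop), GG Γ →
  ∀ {r : ℕ} (f : Fin r → MvPolynomial (Fin 3) ℂ) (i0 : Fin r), (f i0).totalDegree ≤ 2 →
  Cv Γ f fun p => ∃ i, eval p (pderiv i (f i0)) ≠ 0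

/-- Step S5: quadratic forms in three variables without a common singular line (use S4 and
`Pool.Agent.Q57.QP.StConics`, `Pool.Agent.Q57.QP.StHess`; if `f_j = x l_j` with linear forms `x`, `l_j`,
then either three of the `f_j` are algebraically independent, or the ideal is generated by `x y`,
`x z` in suitable coordinates). -/
def StQForms : Prop := ∀ (Γ : ∀ n r : ℕ, (Fin r → MvPolynomial (Fin n) ℂ) → Prop), GG Γ →
  ∀ {r : ℕ} (f : Fin r → MvPolynomial (Fin 3) ℂ), (∀ j, (f j).IsHomogeneous 2) →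
  (∀ p : Fin 3 → ℂ, (∀ j i, eval p (pderiv i (f j)) = 0) → p = 0) → Γ 3 r f

/-- Step S6: the common singular points of polynomials of degree at most two (translate such a point
to the origin; if there are others, then the polynomials do not depend on one of the variables after
a change of coordinates: use C1, C2; otherwise use S5). -/
def StCvVertex : Prop := ∀ (Γ : ∀ n r : ℕ, (Fin r → MvPolynomial (Fin n) ℂ) → Prop), GG Γ →
  ∀ {r : ℕ} (f : Fin r → MvPolynomial (Fin 3) ℂ), (∃ j, f j ≠ 0) → (∀ j, (f j).totalDegree ≤ 2) →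
  Cv Γ f fun p => ∀ j i, eval p (pderiv i (f j)) = 0

/-- Step S7: systems of quadrics. -/
def StCvQuad : Prop := ∀ (Γ : ∀ n r : ℕ, (Fin r → MvPolynomial (Fin n) ℂ) → Prop), GG Γ →
  ∀ {r : ℕ} (f : Fin r → MvPolynomial (Fin 3) ℂ), QuadSys f → Cv Γ f fun _ => True

end covers

end Pool.Agent.Q57.QM
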