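import Pool.Agent.Q57.QM.All0
import Pool.Agent.Q57.QM.Rows
import Pool.Agent.Q128.QM.C3

set_option autoImplicit false

/-! # All steps -/

namespace Pool.Agent.Q57.QM

theorem steps : Steps := steps' Pool.Agent.Q128.QM.qm_cvsum Pool.Agent.Q128.QM.qm_cvmul

end Pool.Agent.Q57.QM
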