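import Pool.Agent.Q57.QM.Stm4

set_option autoImplicit false
set_option linter.unusedSectionVars false
set_option linter.unusedVariables false

/-! # The induction -/

namespace Pool.Agent.Q57.QM

open MvPolynomial Pool.Agent.W428.MOT Pool.Agent.TH192.MT Pool.Agent.TH192.DT Pool.Agent.Q49.CO
open Pool.Agent.Y229 Pool.Agent.Q57.MC Pool.Agent.Q57.MD

/-- the steps -/
structure Steps : Prop where
  plane : StPlane
  cvplane : StCvPlane
  cvsum : StCvSum
  cvmul : StCvMul
  cvforms : StCvForms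
  cvquad : StCvQuad
  cvq4 : StCvQ4

variable {M : Meas ℂ (MK ℂ)} (hL : M.L = ((Lu ℂ : (MK ℂ)ˣ) : MK ℂ))

/-- the germs which satisfy the statement of the induction -/
def Gam (M : Meas ℂ (MK ℂ)) (b : Bool) (n r : ℕ) (f : Fin r → MvPolynomial (Fin n) ℂ) : Prop :=
  PM M b f

include hL

/-- the germ at the origin of a family which is covered by charts -/
theorem pm_of_cv {b : Bool} {n r : ℕ} (f : Fin r → MvPolynomial (Fin n) ℂ) (hf : ∃ j, f j ≠ 0)
    (h : Cv (Gam M b) f fun _ => True) : PM M b f := by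
  classical
  obtain ⟨S, hS, hp⟩ := h
  refine ⟨hf, ?_⟩
  obtain ⟨Q, hQ, hz⟩ := exists_union hL b (fun p : Fin n → ℂ => p = 0) S fun A hA => (hS A hA).2
  refine ⟨Q, fun q hq => ?_, ?_⟩
  · obtain ⟨h1, h2, A, hA, ⟨p, hp0, hAp⟩, h3⟩ := hQ q hq
    have h4 : PM M b A.h := (hS A hA).2
    have h5 := sf_chart f A (hS A hA).1 h4.1 p hAp _ ((sf_iff A.h h4.1 _).1 h3)
    rw [hp0] at h5
    exact ⟨h1, h2, h5⟩
  · have hW : ∀ p : Fin n → ℂ, (fun i => algebraMap ℂ (AlgebraicClosure ℂ) (p i)) ∈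
        ({0} : Set (Pt ℂ (Fin n))) → p = 0 := by
      intro p hp'
      funext i
      exact (map_eq_zero _).1 (congrFun (Set.mem_singleton_iff.1 hp') i)
    refine mem_chartsB M (Lu ℂ) hL f _ S (fun A hA => (hS A hA).1) {0} constr_pt0 ?_
      fun p _ hz' => hp p trivial hz'
    rintro A hA ⟨p, hp', hAp⟩
    exact hz A hA ⟨p, hW p hp', hAp⟩

/-- powers of a variable -/
theorem pm_pow (m : ℕ) (hm : 1 ≤ m) :
    PM M true (fun _ : Fin 1 => (X 0 ^ m : MvPolynomial (Fin 1) ℂ)) := by
  classical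
  refine pm_cone hL _ Finset.univ m ⟨⟨0, Finset.mem_univ _⟩, hm, fun _ => ?_, Or.inl ?_⟩ ∅
    (fun A hA => absurd hA (Finset.notMem_empty A)) ?_
    fun A hA => absurd hA (Finset.notMem_empty A)
  · have h1 := (isHomogeneous_X ℂ (0 : Fin 1)).pow m
    rw [one_mul] at h1
    have h2 : (fun i : Fin 1 => if i ∈ (Finset.univ : Finset (Fin 1)) then 1 else 0) =
        (1 : Fin 1 → ℕ) := by
      funext i
      rw [if_pos (Finset.mem_univ _)]
      rfl
    rw [h2]
    exact h1
  · refine ⟨fun _ => 0, ?_⟩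
    have h3 : (Matrix.of fun s t : (Finset.univ : Finset (Fin 1)) =>
        pderiv (s : Fin 1) ((fun _ : Fin 1 => (X 0 ^ m : MvPolynomial (Fin 1) ℂ)) 0)).det =
        pderiv 0 (X 0 ^ m : MvPolynomial (Fin 1) ℂ) := by
      let iu : Unique (Finset.univ : Finset (Fin 1)) :=
        ⟨⟨⟨0, Finset.mem_univ _⟩⟩, fun a => Subtype.ext (Subsingleton.elim _ _)⟩
      rw [Matrix.det_unique, Matrix.of_apply]
      exact congrArg (fun i : Fin 1 => pderiv i (X 0 ^ m : MvPolynomial (Fin 1) ℂ))
        (Subsingleton.elim _ _)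
    rw [h3, pderiv_pow, pderiv_X_self, mul_one]
    refine mul_ne_zero ?_ (pow_ne_zero _ (X_ne_zero _))
    exact Nat.cast_ne_zero.2 (by omega)
  · intro p hp _ h0
    exfalso
    apply hp
    have h1 := h0 0
    simp only [map_pow, eval_X] at h1
    funext i
    rw [Subsingleton.elim i 0]
    exact pow_eq_zero_iff (by omega) |>.1 h1

/-- linear changes of coordinates -/
theorem pm_lin {n r l : ℕ} (f : Fin r → MvPolynomial (Fin n) ℂ)
    (h : Fin l → MvPolynomial (Fin n) ℂ) (U : Matrix (Fin n) (Fin n) ℂ) (hU : U.det ≠ 0)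
    (hs : Ideal.span (Set.range f) =
      Ideal.span (Set.range fun k => aeval (fun i => ∑ j, C (U i j) * X j :
        Fin n → MvPolynomial (Fin n) ℂ) (h k))) (ih : PM M true h) : PM M true f := by
  classical
  have hc : ∀ u t, MvPowerSeries.coeff (Finsupp.single u 1)
      (((∑ j, C (U t j) * X j : MvPolynomial (Fin n) ℂ) : MvPolynomial (Fin n) ℂ) :
        MvPowerSeries (Fin n) ℂ) = U t u := by
    intro u t
    rw [MvPolynomial.coeff_coe, coeff_sum, Finset.sum_eq_single u]
    · rw [coeff_C_mul, coeff_X, if_pos rfl, mul_one]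
    · intro j _ hj
      rw [coeff_C_mul, coeff_X, if_neg, mul_zero]
      intro h1
      exact hj (Finsupp.single_left_injective one_ne_zero h1)
    · intro h1
      exact absurd (Finset.mem_univ u) h1
  refine pm_formal hL f h (fun t => ((∑ j, C (U t j) * X j : MvPolynomial (Fin n) ℂ) :
    MvPowerSeries (Fin n) ℂ)) id (fun t => ?_) ?_ ?_ ih
  · rw [← MvPowerSeries.coeff_zero_eq_constantCoeff_apply, MvPolynomial.coeff_coe, coeff_sum]
    refine Finset.sum_eq_zero fun j _ => ?_
    rw [coeff_C_mul, coeff_zero_X, mul_zero]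
  · have h1 : (Matrix.of fun u t => MvPowerSeries.coeff (Finsupp.single (id u) 1)
        ((∑ j, C (U t j) * X j : MvPolynomial (Fin n) ℂ) : MvPowerSeries (Fin n) ℂ)) =
        U.transpose := by
      ext u t
      rw [Matrix.of_apply, id, hc, Matrix.transpose_apply]
    rw [h1, Matrix.det_transpose]
    exact hU
  · have h1 := congrArg (Ideal.map (MvPolynomial.coeToMvPowerSeries.ringHom
      (R := ℂ) (σ := Fin n))) hs
    rw [Ideal.map_span, Ideal.map_span, ← Set.range_comp, ← Set.range_comp] at h1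
    refine h1.trans ?_
    congr 2
    funext k
    exact (aeval_coe _ (h k)).symm

omit hL in
theorem cv_mono' {Γ Γ' : ∀ n r : ℕ, (Fin r → MvPolynomial (Fin n) ℂ) → Prop} {n r : ℕ}
    {f : Fin r → MvPolynomial (Fin n) ℂ} {P : (Fin n → ℂ) → Prop}
    (h : ∀ n r f, Γ n r f → Γ' n r f) (hf : Cv Γ f P) : Cv Γ' f P := by
  obtain ⟨S, hS, hp⟩ := hf
  exact ⟨S, fun A hA => ⟨(hS A hA).1, h _ _ _ (hS A hA).2⟩, hp⟩

/-- cones -/
theorem pm_cone_cv {b : Bool} {n r : ℕ} (f : Fin r → MvPolynomial (Fin n) ℂ) (d : ℕ)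
    (hf : IsForm Finset.univ d f) (h : Cv (Gam M b) f fun p => p ≠ 0) : PM M b f := by
  classical
  obtain ⟨S, hS, hp⟩ := h
  exact pm_cone hL f Finset.univ d hf S (fun A hA => (hS A hA).1)
    (fun p hp0 _ hz => hp p hp0 hz) fun A hA => (hS A hA).2

theorem gg_gam (H : Steps) : GG (Gam M true) where
  plane := fun f hf => H.plane hL f hf
  pow := fun m hm => pm_pow hL m hm
  sum := fun f g hf hg => pm_sum hL f g hf hg
  mul := fun f g hf hg => pm_mul hL f g hf hg
  cone := fun f d hf h => pm_cone_cv hL f d hf h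
  lin := fun f h U hU hs hh => pm_lin hL f h U hU hs hh

/-- a family of forms is a chart of itself at the origin -/
theorem cv_origin {Γ : ∀ n r : ℕ, (Fin r → MvPolynomial (Fin n) ℂ) → Prop} {n r : ℕ}
    (f : Fin r → MvPolynomial (Fin n) ℂ) (hf : Γ n r f) (h : Cv Γ f fun p => p ≠ 0) :
    Cv Γ f fun _ => True := by
  classical
  obtain ⟨S, hS, hp⟩ := h
  refine ⟨insert (Chart.mk n r X 1 id f) S, fun A hA => ?_, fun p _ hz => ?_⟩
  · rcases Finset.mem_insert.1 hA with rfl | hA
    · refine ⟨?_, hf⟩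
      have h1 := same_one f (fun t => (X t : MvPolynomial (Fin n) ℂ))
      have h2 : (fun k => aeval (fun t => (X t : MvPolynomial (Fin n) ℂ)) (f k)) = f := by
        funext k
        exact aeval_X_left_apply (f k)
      rw [h2] at h1
      exact h1
    · exact hS A hA
  · by_cases h0 : p = 0
    · refine ⟨_, Finset.mem_insert_self _ _, ?_⟩
      subst h0
      refine ⟨by rw [map_one]; exact one_ne_zero, fun t => by
        change eval 0 (X t : MvPolynomial (Fin n) ℂ) = 0
        rw [eval_X, Pi.zero_apply], ?_⟩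
      have h1 : (Matrix.of fun u t : Fin n => eval (0 : Fin n → ℂ)
          (pderiv (id u) (X t : MvPolynomial (Fin n) ℂ))) = 1 := by
        ext u t
        rw [Matrix.of_apply, id, Matrix.one_apply]
        split_ifs with h
        · rw [h, pderiv_X_self, map_one]
        · rw [pderiv_X_of_ne (Ne.symm h), map_zero]
      change (Matrix.of fun u t : Fin n => eval (0 : Fin n → ℂ)
          (pderiv (id u) (X t : MvPolynomial (Fin n) ℂ))).det ≠ 0
      rw [h1, Matrix.det_one]
      exact one_ne_zero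
    · obtain ⟨A, hA, hAp⟩ := hp p h0 hz
      exact ⟨A, Finset.mem_insert_of_mem hA, hAp⟩

omit hL in
/-- the statement of the induction -/
def Mot (M : Meas ℂ (MK ℂ)) : Kd → Bool → (n r : ℕ) → (Fin r → MvPolynomial (Fin n) ℂ) → Prop
  | .germ, b, n, r, f => PM M b f
  | .cov, b, n, r, f => (∃ j, f j ≠ 0) ∧ Cv (Gam M b) f fun _ => True
  | .glob, b, n, r, f => GM M b f

/-- the induction -/
theorem qc_main (H : Steps) {k : Kd} {b : Bool} {n r : ℕ} {f : Fin r → MvPolynomial (Fin n) ℂ}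
    (h : QC k b n r f) : Mot M k b n r f := by
  classical
  induction h with
  | plane f hf => exact ⟨hf, H.cvplane _ (gg_gam hL H).plane (gg_gam hL H).pow f hf⟩
  | quad f hf => exact ⟨hf.1, H.cvquad _ (gg_gam hL H) f hf⟩
  | quad4 f hf h => exact ⟨hf, H.cvq4 _ (gg_gam hL H) f hf h⟩
  | @forms b n r f d hf h ih =>
    have h1 : Cv (Gam M b) f fun p => p ≠ 0 := by
      refine H.cvforms _ f d (fun j => ?_) fun i => (ih i).2
      have h2 := hf.2.2.1 j
      have h3 : (fun i => if i ∈ (Finset.univ : Finset (Fin (n + 1))) then 1 else 0) =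
          (1 : Fin (n + 1) → ℕ) := by
        funext i
        rw [if_pos (Finset.mem_univ _)]
        rfl
      rw [h3] at h2
      exact h2
    have h2 : PM M b f := pm_cone_cv hL f d hf h1
    exact ⟨h2.1, cv_origin hL f h2 h1⟩
  | csum f g hf hg ihf ihg =>
    exact ⟨sumF_ne f g ihf.1, H.cvsum _ (fun f g hf hg => pm_sum hL f g hf hg) f g ihf.2 ihg.2⟩
  | cmul f g hf hg ihf ihg =>
    exact ⟨mulF_ne' f g ihf.1 ihg.1, H.cvmul _ (fun f g hf hg => pm_mul hL f g hf hg) f g ihf.2
      ihg.2⟩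
  | charts f hf S hS hT hp ih => exact ⟨hf, S, fun A hA => ⟨hS A hA, ih A hA⟩, fun p _ hz => hp p hz⟩
  | germ f hf ih => exact pm_of_cv hL f ih.1 ih.2
  | glob f hf ih =>
    obtain ⟨h0, S, hS, hp⟩ := ih
    exact gm_charts hL f S (fun A hA => (hS A hA).1) (fun p hz => hp p trivial hz)
      fun A hA => (hS A hA).2
  | @weak k n r f hf ih =>
    cases k with
    | germ => exact pm_weak hL f ih
    | cov => exact ⟨ih.1, cv_mono' (fun n r f h => pm_weak hL f h) ih.2⟩
    | glob => exact gm_weak hL f ih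
  | @mul k hk b n r n' r' f g hf hg ihf ihg =>
    cases k with
    | germ => exact pm_mul hL f g ihf ihg
    | cov => exact absurd rfl hk
    | glob => exact gm_mul hL f g ihf ihg
  | @sum k hk n r n' r' f g hf hg ihf ihg =>
    cases k with
    | germ => exact pm_sum hL f g ihf ihg
    | cov => exact absurd rfl hk
    | glob => exact gm_sum hL f g ihf ihg
  | @hyp k hk b n r f hf ih =>
    cases k with
    | germ => exact pm_hyp hL f ih
    | cov => exact absurd rfl hk
    | glob => exact gm_hyp hL f ih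
  | formal f h g s hg hd hs hh ih => exact pm_formal hL f h g s hg hd hs ih

omit hL in
/-- **The theorem for the germs of the class.** -/
theorem qc_germ (H : Steps) {b : Bool} {n r : ℕ} {f : Fin r → MvPolynomial (Fin n) ℂ}
    (h : QC .germ b n r f) : (∃ j, f j ≠ 0) ∧ ∃ S : Finset (ℤ × ℤ), StrongMC f S := by
  obtain ⟨M, hL, hχ⟩ := exists_meas ℂ
  have h1 : PM M false f := by
    cases b
    · exact qc_main hL H h
    · exact pm_weak hL f (qc_main hL H h)
  obtain ⟨hne, S, hS, hz⟩ := h1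
  refine ⟨hne, S, fun q hq => ⟨(hS q hq).1, (hS q hq).2.1, (sf_iff f hne _).1 (hS q hq).2.2⟩, ?_⟩
  rw [SW_false] at hz
  exact (zeta_iff hL hχ f _).2 hz

omit hL in
/-- **The global theorem.** -/
theorem qc_glob (H : Steps) {b : Bool} {n r : ℕ} {f : Fin r → MvPolynomial (Fin n) ℂ}
    (h : QC .glob b n r f) : (∃ j, f j ≠ 0) ∧ ∃ S : Finset (ℤ × ℤ), GlobMC f S := by
  obtain ⟨M, hL, hχ⟩ := exists_meas ℂ
  have h1 : GM M false f := by
    cases b
    · exact qc_main hL H h
    · exact gm_weak hL f (qc_main hL H h)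
  obtain ⟨hne, S, hS, hz⟩ := h1
  refine ⟨hne, S, hS, ?_⟩
  rw [SW_false] at hz
  exact (zetaId_iff hL hχ f _).2 hz

end Pool.Agent.Q57.QM
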