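import Pool.Agent.Q190.QM.W
import Pool.Agent.Q190.QM.V2
import Pool.Agent.Q190.QM.V3
import Pool.Agent.Q190.QM.V4
import Pool.Agent.Q66.QM.L
import Pool.Agent.Q66.QM.B1
import Pool.Agent.Q24.QM.RESTK
import Pool.Agent.Q18.QM.Blow
import Pool.Agent.Q251.QM.T
import Pool.Agent.Q176.QM.P
import Pool.Agent.Q16.QM.Comp
import Pool.Agent.Q210.QM.C2
import Pool.Agent.Q16.QM.Forms
import Pool.Agent.Q16.QM.Lin
import Pool.Agent.Q252.QM.S2
import Pool.Agent.Q252.QM.S3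
import Pool.Agent.Q252.QM.S4
import Pool.Agent.Q252.QM.S7
import Pool.Agent.Q162.QM.QForms
import Pool.Agent.Q162.QM.Vertex
import Pool.Agent.Q162.QP.Fin
import Pool.Agent.Q208.QM.R1
import Pool.Agent.Q111.QM.Root
import Pool.Agent.Q251.QM.R3
import Pool.Agent.Q57.QM.Main

set_option autoImplicit false

/-! # The steps -/

namespace Pool.Agent.Q57.QM

open Pool.Agent.Q190.QM Pool.Agent.Q66.QM Pool.Agent.Q24.QM Pool.Agent.Q251.QM

theorem st_plane : StPlane :=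
  Pool.Agent.Q176.QM.qm_plane
    (qm_tree (qm_unit qm_box) (qm_curve qm_box qm_curvevol) qm_swap
      (Pool.Agent.Q18.QM.qm_blow qm_win qm_swap qm_tail (qm_chartk qm_blowvol)
        (qm_restk qm_ervol)))
    Pool.Agent.Q176.QM.qm_den

theorem st_cvforms : StCvForms := Pool.Agent.Q16.QM.qm_cvforms Pool.Agent.Q16.QM.qm_cvcomp

theorem st_cvquad (hs : StCvSum) : StCvQuad :=
  have h1 : StCvSmooth := Pool.Agent.Q252.QM.qm_cvsmooth (Pool.Agent.Q252.QM.qm_cviso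
    (Pool.Agent.Q16.QM.qm_cvlin Pool.Agent.Q16.QM.qm_cvcomp Pool.Agent.Q210.QM.qm_cvplane hs))
    Pool.Agent.Q252.QM.qm_isovec
  Pool.Agent.Q252.QM.qm_cvquad h1 (Pool.Agent.Q162.QM.qm_cvvertex Pool.Agent.Q16.QM.qm_cvcomp
    Pool.Agent.Q210.QM.qm_cvplane (Pool.Agent.Q162.QM.qm_qforms Pool.Agent.Q162.QP.qp_conics
      Pool.Agent.Q162.QP.qp_hess h1))

theorem st_root4 : StRoot4 :=
  Pool.Agent.Q111.QM.qm_root4 Pool.Agent.Q208.QM.qm_sing4 Pool.Agent.Q162.QP.qp_hess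

theorem st_cvq4 (hs : StCvSum) : StCvQ4 :=
  qm_cvq4 Pool.Agent.Q16.QM.qm_cvcomp st_cvforms (st_cvquad hs) st_root4

theorem steps' (hs : StCvSum) (hm : StCvMul) : Steps where
  plane := st_plane
  cvplane := Pool.Agent.Q210.QM.qm_cvplane
  cvsum := hs
  cvmul := hm
  cvforms := st_cvforms
  cvquad := st_cvquad hs
  cvq4 := st_cvq4 hs

end Pool.Agent.Q57.QM
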