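import Pool.Agent.Q57.MD.Cases

set_option autoImplicit false
set_option linter.unusedSectionVars false
set_option linter.unusedVariables false

/-! # Volumes of sets of arcs given by conditions on finitely many coefficients -/

namespace Pool.Agent.Q57.QM

open MvPolynomial Pool.Agent.W428.MOT Pool.Agent.TH192.MT Pool.Agent.TH192.DT Pool.Agent.Q49.CO

/-- the arcs of the affine space -/
abbrev Arc (K : Type) [Field K] (σ : Type) : Type := σ → PowerSeries (AlgebraicClosure K)

variable {K : Type} [Field K] {σ τ : Type}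

/-- `P` is a constructible condition on the coefficients of order at most `q` -/
structure Cyl (P : Arc K σ → Prop) (q : ℕ) : Prop where
  det : ∀ γ δ : Arc K σ, (∀ i, Cg q (γ i) (δ i)) → (P γ ↔ P δ)
  con : Constr {z : Pt K (σ × Fin (q + 1)) | P (ar z)}

/-- the coefficients of order at most `q` -/
noncomputable def jet (q : ℕ) (γ : Arc K σ) : Pt K (σ × Fin (q + 1)) := fun x =>
  PowerSeries.coeff (x.2 : ℕ) (γ x.1)

theorem cg_jet (q : ℕ) (γ : Arc K σ) (i : σ) : Cg q (γ i) (ar (jet q γ) i) := by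
  intro k hk
  rw [coeff_ar, dif_pos (by omega)]
  rfl

theorem jet_ar {q : ℕ} (z : Pt K (σ × Fin (q + 1))) : jet q (ar z) = z := by
  funext ⟨i, j⟩
  change PowerSeries.coeff (j : ℕ) (ar z i) = z (i, j)
  rw [coeff_ar, dif_pos j.2]

theorem cg_mono {F : Type} [Field F] {q q' : ℕ} (h : q ≤ q') {a b : PowerSeries F}
    (hab : Cg q' a b) : Cg q a b := fun k hk => hab k (by omega)

theorem cg_symm {F : Type} [Field F] {q : ℕ} {a b : PowerSeries F}
    (hab : Cg q a b) : Cg q b a := fun k hk => (hab k hk).symm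

theorem cg_trans {F : Type} [Field F] {q : ℕ} {a b c : PowerSeries F}
    (hab : Cg q a b) (hbc : Cg q b c) : Cg q a c := fun k hk => (hab k hk).trans (hbc k hk)

namespace Cyl

/-- constructible conditions on the jets -/
theorem of_constr {q : ℕ} {S : Set (Pt K (σ × Fin (q + 1)))} (hS : Constr S) :
    Cyl (fun γ : Arc K σ => jet q γ ∈ S) q where
  det := by
    intro γ δ h
    have h1 : jet q γ = jet q δ := by
      funext ⟨i, j⟩
      exact h i j (by omega)
    rw [h1]
  con := by
    simp only [jet_ar]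
    exact hS

theorem mono {P : Arc K σ → Prop} {q q' : ℕ} (h : Cyl P q) (hq : q ≤ q') : Cyl P q' where
  det := fun γ δ hγ => h.det γ δ fun i => cg_mono hq (hγ i)
  con := by
    have h1 := h.con.preimage (fun (z : Pt K (σ × Fin (q' + 1))) (x : σ × Fin (q + 1)) =>
      z (x.1, ⟨x.2, by omega⟩)) fun i => IsPF.coord _
    have h2 : {z : Pt K (σ × Fin (q' + 1)) | P (ar z)} = {z : Pt K (σ × Fin (q' + 1)) |
        (fun x : σ × Fin (q + 1) => z (x.1, ⟨x.2, by omega⟩)) ∈
          {z : Pt K (σ × Fin (q + 1)) | P (ar z)}} := by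
      ext z
      refine h.det _ _ fun i k hk => ?_
      rw [coeff_ar, coeff_ar, dif_pos (by omega), dif_pos (by omega)]
    rw [h2]
    exact h1

theorem congr {P Q : Arc K σ → Prop} {q : ℕ} (h : Cyl P q) (hPQ : ∀ γ, P γ ↔ Q γ) : Cyl Q q := by
  have h1 : P = Q := funext fun γ => propext (hPQ γ)
  rwa [← h1]

theorem and {P Q : Arc K σ → Prop} {q : ℕ} (hP : Cyl P q) (hQ : Cyl Q q) :
    Cyl (fun γ => P γ ∧ Q γ) q where
  det := fun γ δ h => and_congr (hP.det γ δ h) (hQ.det γ δ h)
  con := Constr.and hP.con hQ.con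

theorem or {P Q : Arc K σ → Prop} {q : ℕ} (hP : Cyl P q) (hQ : Cyl Q q) :
    Cyl (fun γ => P γ ∨ Q γ) q where
  det := fun γ δ h => or_congr (hP.det γ δ h) (hQ.det γ δ h)
  con := Constr.or hP.con hQ.con

theorem not {P : Arc K σ → Prop} {q : ℕ} (hP : Cyl P q) : Cyl (fun γ => ¬ P γ) q where
  det := fun γ δ h => not_congr (hP.det γ δ h)
  con := Constr.not hP.con

theorem const (p : Prop) (q : ℕ) : Cyl (fun _ : Arc K σ => p) q where
  det := fun _ _ _ => Iff.rfl
  con := Constr.const p

theorem all {α : Type} [Finite α] {P : α → Arc K σ → Prop} {q : ℕ} (h : ∀ a, Cyl (P a) q) :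
    Cyl (fun γ => ∀ a, P a γ) q where
  det := fun γ δ hγ => forall_congr' fun a => (h a).det γ δ hγ
  con := Constr.all fun a => (h a).con

theorem ex {α : Type} [Finite α] {P : α → Arc K σ → Prop} {q : ℕ} (h : ∀ a, Cyl (P a) q) :
    Cyl (fun γ => ∃ a, P a γ) q where
  det := fun γ δ hγ => exists_congr fun a => (h a).det γ δ hγ
  con := Constr.ex fun a => (h a).con

theorem exFinset {α : Type} (s : Finset α) {P : α → Arc K σ → Prop} {q : ℕ}
    (h : ∀ a ∈ s, Cyl (P a) q) : Cyl (fun γ => ∃ a ∈ s, P a γ) q where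
  det := fun γ δ hγ => exists_congr fun a => by
    constructor
    · rintro ⟨ha, h1⟩
      exact ⟨ha, ((h a ha).det γ δ hγ).1 h1⟩
    · rintro ⟨ha, h1⟩
      exact ⟨ha, ((h a ha).det γ δ hγ).2 h1⟩
  con := Constr.bexFinset s fun a ha => (h a ha).con

/-- the order of the value of a polynomial is at least `N` -/
theorem vn (f : MvPolynomial σ K) {N q : ℕ} (h : N ≤ q + 1) :
    Cyl (fun γ : Arc K σ => Vn N (aeval γ f)) q where
  det := fun γ δ hγ => vn_congr' (cg_aevalK f q γ δ hγ) h
  con := Constr.allLt _ fun k _ => Constr.eqz (pf_coeffK (fun z => z) (fun i => IsPF.coord _) _ _)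

/-- the order of a coordinate is at least `N` -/
theorem vnX (i : σ) {N q : ℕ} (h : N ≤ q + 1) : Cyl (fun γ : Arc K σ => Vn N (γ i)) q := by
  refine (vn (X i) h).congr fun γ => ?_
  rw [aeval_X]

/-- a coefficient of a coordinate vanishes -/
theorem c0 (i : σ) {k q : ℕ} (h : k ≤ q) :
    Cyl (fun γ : Arc K σ => PowerSeries.coeff k (γ i) = 0) q where
  det := fun γ δ hγ => by rw [hγ i k h]
  con := by
    refine Constr.eqz ?_
    have h1 : (fun z : Pt K (σ × Fin (q + 1)) => PowerSeries.coeff k (ar z i)) =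
        fun z => z (i, ⟨k, by omega⟩) := by
      funext z
      rw [coeff_ar, dif_pos (by omega)]
    rw [h1]
    exact IsPF.coord _

/-- a polynomial condition on coefficients -/
theorem cpoly {q : ℕ} (Φ : MvPolynomial (σ × Fin (q + 1)) K) :
    Cyl (fun γ : Arc K σ => aeval (jet q γ) Φ = 0) q :=
  of_constr (S := {z | aeval z Φ = 0}) (Constr.eqz (IsPF.poly _))

end Cyl

variable {R : Type} [CommRing R] (M : Meas K R) (v : R) [Fintype σ] [Fintype τ]

/-- the normalised class of the set of the jets of level `q` -/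
noncomputable def vq (P : Arc K σ → Prop) (q : ℕ) : R :=
  M.χ _ {z : Pt K (σ × Fin (q + 1)) | P (ar z)} * v ^ (Fintype.card σ * (q + 1))

open Classical in
/-- The volume of the set of the arcs `γ` such that `P γ`, normalised such that the set of all arcs
has the volume `1` (and `0` if the condition is not a constructible condition on finitely many
coefficients). -/
noncomputable def vo (P : Arc K σ → Prop) : R :=
  if h : ∃ q, Cyl P q then vq M v P h.choose else 0

variable {v} (hv : M.L * v = 1)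
include hv

theorem vq_succ {P : Arc K σ → Prop} {q : ℕ} (h : Cyl P q) : vq M v P (q + 1) = vq M v P q := by
  unfold vq
  have h1 : M.χ _ {z : Pt K (σ × Fin (q + 1 + 1)) | P (ar z)} =
      M.χ _ {z : Pt K (σ × Fin (q + 1)) | P (ar z)} * M.L ^ Fintype.card σ := by
    refine chi_split M (eL σ q) _ _ h.con fun z => ?_
    refine h.det _ _ fun i k hk => ?_
    rw [coeff_ar, coeff_ar, dif_pos (by omega), dif_pos (by omega)]
    rfl
  rw [h1]
  have h3 : M.L ^ Fintype.card σ * v ^ Fintype.card σ = 1 := by rw [← mul_pow, hv, one_pow]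
  have h4 : v ^ (Fintype.card σ * (q + 1 + 1)) =
      v ^ (Fintype.card σ * (q + 1)) * v ^ Fintype.card σ := by
    rw [mul_add _ (q + 1) 1, mul_one, pow_add]
  rw [h4]
  linear_combination (M.χ _ {z : Pt K (σ × Fin (q + 1)) | P (ar z)} *
    v ^ (Fintype.card σ * (q + 1))) * h3

theorem vq_eq {P : Arc K σ → Prop} {q q' : ℕ} (h : Cyl P q) (hq : q ≤ q') :
    vq M v P q' = vq M v P q := by
  obtain ⟨k, rfl⟩ := Nat.exists_eq_add_of_le hq
  induction k with
  | zero => rfl
  | succ k ih =>
    have h1 : q + (k + 1) = q + k + 1 := rfl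
    rw [h1, vq_succ M hv (h.mono (by omega)), ih (by omega)]

theorem vo_eq {P : Arc K σ → Prop} {q : ℕ} (h : Cyl P q) : vo M v P = vq M v P q := by
  unfold vo
  have h1 : ∃ q, Cyl P q := ⟨q, h⟩
  rw [dif_pos h1]
  have h2 := h1.choose_spec
  rcases le_total q h1.choose with h3 | h3
  · exact vq_eq M hv h h3
  · exact (vq_eq M hv h2 h3).symm

omit hv in
theorem vo_congr {P Q : Arc K σ → Prop} (h : ∀ γ, P γ ↔ Q γ) : vo M v P = vo M v Q := by
  have h1 : P = Q := funext fun γ => propext (h γ)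
  rw [h1]

theorem vo_false {P : Arc K σ → Prop} (h : ∀ γ, ¬ P γ) : vo M v P = 0 := by
  have h1 : P = fun _ => False := funext fun γ => propext ⟨fun h' => h γ h', False.elim⟩
  rw [h1, vo_eq M hv (Cyl.const False 0)]
  unfold vq
  have h2 : {z : Pt K (σ × Fin (0 + 1)) | False} = ∅ := by
    ext z
    simp
  rw [h2, Pool.Agent.W375.MT.chi_empty, zero_mul]

theorem vo_or {P Q : Arc K σ → Prop} {q q' : ℕ} (hP : Cyl P q) (hQ : Cyl Q q')
    (hd : ∀ γ, P γ → Q γ → False) : vo M v (fun γ => P γ ∨ Q γ) = vo M v P + vo M v Q := by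
  have hP' := hP.mono (le_max_left q q')
  have hQ' := hQ.mono (le_max_right q q')
  rw [vo_eq M hv (hP'.or hQ'), vo_eq M hv hP', vo_eq M hv hQ']
  unfold vq
  have h1 : {z : Pt K (σ × Fin (max q q' + 1)) | P (ar z) ∨ Q (ar z)} =
      {z | P (ar z)} ∪ {z | Q (ar z)} := rfl
  rw [h1, M.add _ _ hP'.con hQ'.con (Set.disjoint_left.2 fun z h h' => hd _ h h'), add_mul]

/-- the volumes of disjoint conditions are added -/
theorem vo_sum {α : Type} (s : Finset α) {P : α → Arc K σ → Prop} {q : ℕ}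
    (hP : ∀ a ∈ s, Cyl (P a) q) (hd : ∀ a ∈ s, ∀ b ∈ s, a ≠ b → ∀ γ, P a γ → P b γ → False) :
    vo M v (fun γ => ∃ a ∈ s, P a γ) = ∑ a ∈ s, vo M v (P a) := by
  classical
  induction s using Finset.induction_on with
  | empty =>
    rw [Finset.sum_empty]
    exact vo_false M hv fun γ ⟨a, ha, _⟩ => absurd ha (Finset.notMem_empty a)
  | insert a s ha ih =>
    rw [Finset.sum_insert ha, ← ih (fun b hb => hP b (Finset.mem_insert_of_mem hb))
      fun b hb c hc => hd b (Finset.mem_insert_of_mem hb) c (Finset.mem_insert_of_mem hc),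
      ← vo_or M hv (hP a (Finset.mem_insert_self _ _))
        (Cyl.exFinset s fun b hb => hP b (Finset.mem_insert_of_mem hb))]
    · refine vo_congr M fun γ => ?_
      simp only [Finset.mem_insert, exists_eq_or_imp]
    · rintro γ h1 ⟨b, hb, h2⟩
      refine hd a (Finset.mem_insert_self _ _) b (Finset.mem_insert_of_mem hb) ?_ γ h1 h2
      rintro rfl
      exact ha hb

/-- splitting a condition -/
theorem vo_split {P Q : Arc K σ → Prop} {q q' : ℕ} (hP : Cyl P q) (hQ : Cyl Q q') :
    vo M v P = vo M v (fun γ => P γ ∧ Q γ) + vo M v (fun γ => P γ ∧ ¬ Q γ) := by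
  have hP' := hP.mono (le_max_left q q')
  have hQ' := hQ.mono (le_max_right q q')
  rw [← vo_or M hv (hP'.and hQ') (hP'.and hQ'.not) fun γ h h' => h'.2 h.2]
  refine vo_congr M fun γ => ?_
  tauto

/-- the volumes of `Pool.Agent.Q49.CO` -/
theorem vol_eq_vo {J : Type} [Finite J] (f : J → MvPolynomial σ K) {W : Set (Pt K σ)}
    (hW : Constr W) (N : ℕ) : vol M v f W N =
      vo M v fun γ => (fun i => PowerSeries.coeff 0 (γ i)) ∈ W ∧ ∀ j, Vn N (aeval γ (f j)) := by
  have h1 : Cyl (fun γ : Arc K σ => (fun i => PowerSeries.coeff 0 (γ i)) ∈ W) N := by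
    refine (Cyl.of_constr (S := {z | (fun i => z (i, 0)) ∈ W})
      (hW.preimage (fun (z : Pt K (σ × Fin (N + 1))) (i : σ) => z (i, 0))
        fun i => IsPF.coord _)).congr fun γ => ?_
    exact Iff.rfl
  rw [vo_eq M hv (h1.and (Cyl.all fun j => Cyl.vn (f j) (show N ≤ N + 1 by omega)))]
  unfold vol vq
  congr 2
  ext z
  rw [mem_GW]
  have h2 : (fun i => PowerSeries.coeff 0 (ar z i)) = fun i => z (i, 0) :=
    funext fun i => coeff_ar_zero _ _
  change _ ↔ (fun i => PowerSeries.coeff 0 (ar z i)) ∈ W ∧ _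
  rw [h2]

/-- all arcs -/
theorem vo_true : vo M v (fun _ : Arc K σ => True) = 1 := by
  rw [vo_eq M hv (Cyl.const True 0)]
  unfold vq
  have h2 : {z : Pt K (σ × Fin (0 + 1)) | True} = Set.univ := by
    ext z
    simp
  rw [h2, chi_univ, Fintype.card_prod, Fintype.card_fin, ← mul_pow, hv, one_pow]

end Pool.Agent.Q57.QM
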