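import Pool.Agent.Q57.QM.Stm
import Pool.Agent.Q57.QP.Stm

set_option autoImplicit false

/-! # Quadratic forms in four variables: statements of the steps -/

namespace Pool.Agent.Q57.QM

open MvPolynomial
open Pool.Agent.Y229 (SF)
open Pool.Agent.Q57.QP (LPF)

/-- Step R1: linear systems of singular quadratic forms in four variables. -/
def StSing4 : Prop := ∀ (K : Type) [Field K] [CharZero K] {r : ℕ}
  (A : Fin r → Matrix (Fin 4) (Fin 4) K), (∀ j, (A j).IsSymm) →
  (∃ lam : Fin r → K, (∑ j, lam j • A j).det ≠ 0) ∨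
  (∃ v : Fin 4 → K, v ≠ 0 ∧ ∀ j, (A j).mulVec v = 0) ∨
  (∃ (x w : Fin 4 → K) (L : Fin r → Fin 4 → K) (c : Fin r → K), x ≠ 0 ∧
    ∀ j, A j = Matrix.vecMulVec x (L j) + Matrix.vecMulVec (L j) x + c j • Matrix.vecMulVec w w)

/-- Step R2: quadratic forms in four variables without a common vertex: `-2` is a root at the origin,
or they are the products of one variable with linear forms in the three other ones, in suitable
coordinates. -/
def StRoot4 : Prop := ∀ {K : Type} [Field K] (φ : K →+* ℂ) {r : ℕ}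
  (f : Fin r → MvPolynomial (Fin 4) K), (∀ j, (f j).IsHomogeneous 2) →
  (∀ p : Fin 4 → K, (∀ j i, eval p (pderiv i (f j)) = 0) → p = 0) →
  SF (fun j => map φ (f j)) 0 (-2) ∨
  ∃ (U : Matrix (Fin 4) (Fin 4) K) (m : Fin r → MvPolynomial (Fin 3) K), U.det ≠ 0 ∧
    (∀ j, (m j).IsHomogeneous 1) ∧ (∀ p : Fin 3 → K, (∀ j, eval p (m j) = 0) → p = 0) ∧
    ∀ j, aeval (fun i => ∑ k, C (U i k) * X k : Fin 4 → MvPolynomial (Fin 4) K) (f j) =
      X 0 * rename Fin.succ (m j)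

/-- Step R3: covers of families of quadratic forms in four variables. -/
def StCvQ4 : Prop := ∀ (Γ : ∀ n r : ℕ, (Fin r → MvPolynomial (Fin n) ℂ) → Prop), GG Γ →
  ∀ {r : ℕ} (f : Fin r → MvPolynomial (Fin 4) ℂ), (∃ j, f j ≠ 0) → (∀ j, (f j).IsHomogeneous 2) →
  Cv Γ f fun _ => True

/-- Step R4: the local `p`-adic statement for polynomials of degree at most two in three variables. -/
def StQ3 : Prop := ∀ (p : ℕ) [Fact p.Prime] (φ : ℚ_[p] →+* ℂ) {r : ℕ}
  (f : Fin r → MvPolynomial (Fin 3) ℚ_[p]), (∃ j, f j ≠ 0) → (∀ j, (f j).totalDegree ≤ 2) →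
  ∀ P, LPF φ f P

/-- Step R5: the local `p`-adic statement for quadratic forms in four variables. -/
def StQ4 : Prop := ∀ (p : ℕ) [Fact p.Prime] (φ : ℚ_[p] →+* ℂ) {r : ℕ}
  (f : Fin r → MvPolynomial (Fin 4) ℚ_[p]), (∃ j, f j ≠ 0) → (∀ j, (f j).IsHomogeneous 2) →
  ∀ P, LPF φ f P

end Pool.Agent.Q57.QM
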